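import Pool.Agent.Q35.LO.Stm
import Pool.Agent.Q24.MM.MK
import Pool.Agent.Q144.MM.Db
import Pool.Agent.Q285.MM.Lw

/-!
Project LO of helper35 (MP_1acd66_nt), jobs REP, HB, NO, PIG, REV: common lemmas (helper151).
-/

set_option autoImplicit false

namespace Pool.Agent.Q151.LO

open Finset Function NumberField
open Pool.Agent.Q35.MM (bx dg Pts S1 mem_bx)

section

variable (K : Type) [Field K] [NumberField K]

theorem zero_mem_bx (N B : ℕ) : (0 : Fin N → K) ∈ bx K N B := by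
  rw [mem_bx]
  intro a
  refine ⟨isIntegral_zero, fun φ => ?_⟩
  rw [Pi.zero_apply, map_zero, norm_zero]
  exact Nat.cast_nonneg B

theorem bx_mono {N B B' : ℕ} (h : B ≤ B') : bx K N B ⊆ bx K N B' := by
  intro x hx
  rw [mem_bx] at hx ⊢
  intro a
  refine ⟨(hx a).1, fun φ => ((hx a).2 φ).trans ?_⟩
  exact_mod_cast h

theorem card_bx_pos (N B : ℕ) : 1 ≤ (bx K N B).card :=
  Finset.card_pos.2 ⟨0, zero_mem_bx K N B⟩

theorem lw1 (N : ℕ) : ∃ c : ℝ, 0 < c ∧ c ≤ 1 ∧ ∀ B : ℕ,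
    c * (B : ℝ) ^ (dg K * N) ≤ ((bx K N B).card : ℝ) := by
  classical
  obtain ⟨c, hc, B0, h⟩ := Pool.Agent.Q285.MM.lw K N ⊤
  have hB0 : (0 : ℝ) < (B0 : ℝ) + 1 := by positivity
  have hp : (0 : ℝ) < ((B0 : ℝ) + 1) ^ (dg K * N) := by positivity
  refine ⟨min (min c 1) (1 / ((B0 : ℝ) + 1) ^ (dg K * N)), by positivity,
    (min_le_left _ _).trans (min_le_right _ _), fun B => ?_⟩
  have hcard : (1 : ℝ) ≤ ((bx K N B).card : ℝ) := by exact_mod_cast card_bx_pos K N B
  rcases le_total B0 B with h1 | h1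
  · have h2 := h B h1
    have h3 : (bx K N B).filter (· ∈ (⊤ : Submodule K (Fin N → K))) = bx K N B :=
      Finset.filter_true_of_mem fun x _ => Submodule.mem_top
    rw [h3, finrank_top, Module.finrank_fin_fun] at h2
    refine le_trans (mul_le_mul_of_nonneg_right ?_ (by positivity)) h2
    exact (min_le_left _ _).trans (min_le_left _ _)
  · refine le_trans ?_ hcard
    have h2 : ((B : ℝ)) ^ (dg K * N) ≤ ((B0 : ℝ) + 1) ^ (dg K * N) := by
      refine pow_le_pow_left₀ (Nat.cast_nonneg B) ?_ _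
      have : (B : ℝ) ≤ B0 := by exact_mod_cast h1
      linarith
    calc min (min c 1) (1 / ((B0 : ℝ) + 1) ^ (dg K * N)) * (B : ℝ) ^ (dg K * N)
        ≤ (1 / ((B0 : ℝ) + 1) ^ (dg K * N)) * ((B0 : ℝ) + 1) ^ (dg K * N) := by
          refine mul_le_mul (min_le_right _ _) h2 (by positivity) (by positivity)
      _ = 1 := by
          rw [one_div, inv_mul_cancel₀ hp.ne']

theorem db1 (k C : ℕ) (hC : 1 ≤ C) :
    ((bx K k C).card : ℝ) ≤ (3 * C : ℝ) ^ (dg K * k) * ((bx K k 1).card : ℝ) := by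
  classical
  have h := Q144.MM.db K k ⊤ k (by rw [finrank_top, Module.finrank_fin_fun]) C 1 le_rfl hC
  have h3 : ∀ B, (bx K k B).filter (· ∈ (⊤ : Submodule K (Fin k → K))) = bx K k B := fun B =>
    Finset.filter_true_of_mem fun x _ => Submodule.mem_top
  rw [h3, h3, Nat.cast_one, div_one] at h
  exact h

variable {K}

theorem exists_one_le {x : K} (hx : IsIntegral ℤ x) (h0 : x ≠ 0) : ∃ φ : K →+* ℂ, 1 ≤ ‖φ x‖ := by
  by_contra hcon
  push Not at hcon
  obtain ⟨w⟩ : Nonempty (InfinitePlace K) := inferInstance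
  set y : 𝓞 K := ⟨x, hx⟩ with hy
  have hyK : (y : K) = x := rfl
  have hy0 : y ≠ 0 := by
    intro h
    apply h0
    rw [← hyK, h]
    rfl
  have hlt : ∀ z : InfinitePlace K, z (y : K) < 1 := by
    intro z
    rw [← InfinitePlace.norm_embedding_eq]
    exact hcon z.embedding
  have h1 := InfinitePlace.one_le_of_lt_one (w := w) hy0 fun z _ => hlt z
  exact absurd (hlt w) (not_lt.2 h1)

theorem nu_mono (N : ℕ) (V : Submodule K (Fin N → K)) {B B' : ℕ} (h : B ≤ B') :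
    Pool.Agent.Q35.LO.nu K N V B ≤ Pool.Agent.Q35.LO.nu K N V B' := by
  classical
  unfold Pool.Agent.Q35.LO.nu
  exact card_le_card (filter_subset_filter _ (bx_mono K h))

theorem one_le_nu (N : ℕ) (V : Submodule K (Fin N → K)) (B : ℕ) :
    1 ≤ Pool.Agent.Q35.LO.nu K N V B := by
  classical
  unfold Pool.Agent.Q35.LO.nu
  refine Finset.card_pos.2 ⟨0, ?_⟩
  rw [mem_filter]
  exact ⟨zero_mem_bx K N B, V.zero_mem⟩

end

end Pool.Agent.Q151.LO
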