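import Pool.Agent.Q151.LO.Com

/-!
Project LO of helper35 (MP_1acd66_nt), job HB-NO (helper151).
-/

set_option autoImplicit false

namespace Pool.Agent.Q151.LO

open Finset Function NumberField
open Pool.Agent.Q35.MM (bx dg Pts S1 mem_bx)

section

variable {K : Type} [Field K] [NumberField K]

/-- The height of an integral vector is at most the product of the maxima at the infinite
places. -/
theorem mulHeight_le_of_integral {m : ℕ} {x : Fin m → K} (hx : x ≠ 0)
    (hi : ∀ a, IsIntegral ℤ (x a)) :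
    Height.mulHeight x ≤ ∏ v : InfinitePlace K, (⨆ a, v (x a)) ^ v.mult := by
  classical
  set y : Fin m → 𝓞 K := fun a => ⟨x a, hi a⟩ with hy
  have hyx : (fun a => (y a : K)) = x := rfl
  have hy0 : y ≠ 0 := by
    intro h
    apply hx
    rw [← hyx, h]
    rfl
  have hN := absNorm_mul_finprod_finitePlace_eq_one hy0
  rw [NumberField.mulHeight_eq hx]
  obtain ⟨i₀, hi₀⟩ := Function.ne_iff.mp hy0
  have hI0 : Ideal.span (Set.range y) ≠ ⊥ := by
    intro h
    rw [Ideal.span_eq_bot] at h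
    exact hi₀ (h _ ⟨i₀, rfl⟩)
  have hNI : 1 ≤ ((Ideal.span (Set.range y)).absNorm : ℝ) := by
    have : (Ideal.span (Set.range y)).absNorm ≠ 0 := by rwa [Ne, Ideal.absNorm_eq_zero_iff]
    exact_mod_cast Nat.one_le_iff_ne_zero.2 this
  have hP : ∏ᶠ v : FinitePlace K, ⨆ i, v (x i) ≤ 1 := by
    have h1 : ∏ᶠ v : FinitePlace K, ⨆ i, v (y i : K) = ∏ᶠ v : FinitePlace K, ⨆ i, v (x i) := rfl
    rw [h1] at hN
    by_contra hcon
    push Not at hcon
    have h2 := mul_lt_mul' hNI hcon zero_le_one (by linarith)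
    rw [hN] at h2
    linarith
  have hA : 0 ≤ ∏ v : InfinitePlace K, (⨆ a, v (x a)) ^ v.mult := by
    refine Finset.prod_nonneg fun v _ => pow_nonneg ?_ _
    exact Real.iSup_nonneg fun a => apply_nonneg v _
  calc _ ≤ (∏ v : InfinitePlace K, (⨆ a, v (x a)) ^ v.mult) * 1 := mul_le_mul_of_nonneg_left hP hA
    _ = _ := mul_one _

theorem hb : Pool.Agent.Q35.LO.S_HB := by
  intro K _ _ m x hx b hb
  rw [mem_bx] at hb
  refine (mulHeight_le_of_integral hx fun a => (hb a).1).trans ?_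
  obtain ⟨i₀, hi₀⟩ := Function.ne_iff.mp hx
  have : Nonempty (Fin m) := ⟨i₀⟩
  calc ∏ v : InfinitePlace K, (⨆ a, v (x a)) ^ v.mult ≤ ∏ v : InfinitePlace K, (b : ℝ) ^ v.mult := by
        refine Finset.prod_le_prod (fun v _ => pow_nonneg ?_ _) fun v _ => ?_
        · exact Real.iSup_nonneg fun a => apply_nonneg v _
        · refine pow_le_pow_left₀ (Real.iSup_nonneg fun a => apply_nonneg v _) ?_ _
          refine ciSup_le fun a => ?_
          rw [← InfinitePlace.norm_embedding_eq]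
          exact (hb a).2 _
    _ = (b : ℝ) ^ dg K := by
        rw [Finset.prod_pow_eq_pow_sum, InfinitePlace.sum_mult_eq]

theorem no (hMK : Pool.Agent.Q35.MM.S_MK) : Pool.Agent.Q35.LO.S_NO := by
  intro K _ _ ι _ _ n r hr B
  classical
  obtain ⟨c, hc, hM⟩ := hMK K
  obtain ⟨b, hb1, hb⟩ : ∃ b : ℕ, 1 ≤ b ∧ B ≤ (b : ℝ) ^ dg K := by
    refine ⟨⌈B⌉₊ + 1, by omega, ?_⟩
    have h1 : (B : ℝ) ≤ ((⌈B⌉₊ + 1 : ℕ) : ℝ) := by
      push_cast
      have := Nat.le_ceil B
      linarith
    have h2 : (1 : ℝ) ≤ ((⌈B⌉₊ + 1 : ℕ) : ℝ) := by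
      push_cast
      have : (0 : ℝ) ≤ (⌈B⌉₊ : ℝ) := Nat.cast_nonneg _
      linarith
    exact h1.trans (le_self_pow₀ h2 (Module.finrank_pos (R := ℚ) (M := K)).ne')
  have hfin : ∀ l : ι, {p : Projectivization K (Fin (n l + 1) → K) |
      p.mulHeight ≤ (b : ℝ) ^ dg K}.Finite := by
    intro l
    have h1 : Set.Finite {v : {v : Fin (n l + 1) → K // v ≠ 0} | (v : Fin (n l + 1) → K) ∈
        bx K (n l + 1) (c * b)} := by
      refine Set.Finite.preimage (Subtype.val_injective.injOn) ?_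
      exact (bx K (n l + 1) (c * b)).finite_toSet
    refine (h1.image (Projectivization.mk' K)).subset ?_
    intro p hp
    rw [Set.mem_ofPred_eq] at hp
    have hp0 := p.rep_nonzero
    have hph : Height.mulHeight p.rep ≤ (b : ℝ) ^ dg K := by
      have h2 : p.mulHeight = Height.mulHeight p.rep := by
        conv_lhs => rw [← p.mk_rep]
        rw [Projectivization.mulHeight_mk]
      rwa [← h2]
    obtain ⟨t, ht0, ht⟩ := hM (n l + 1) p.rep hp0 b hb1 hph
    refine ⟨⟨t • p.rep, smul_ne_zero ht0 hp0⟩, ht, ?_⟩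
    rw [Projectivization.mk'_eq_mk]
    conv_rhs => rw [← p.mk_rep]
    rw [Projectivization.mk_eq_mk_iff']
    exact ⟨t, rfl⟩
  refine (Set.Finite.pi hfin).subset ?_
  intro x hx
  rw [Set.mem_ofPred_eq] at hx
  rw [Set.mem_univ_pi]
  intro l
  rw [Set.mem_ofPred_eq]
  have hone : ∀ i, 1 ≤ (x i).mulHeight := fun i => Projectivization.one_le_mulHeight _
  have h1 : (x l).mulHeight ^ r l ≤ ∏ i, (x i).mulHeight ^ r i := by
    rw [← Finset.mul_prod_erase univ _ (mem_univ l)]
    refine le_mul_of_one_le_right (pow_nonneg (zero_le_one.trans (hone l)) _) ?_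
    refine Finset.prod_induction _ (fun z : ℝ => 1 ≤ z) (fun a b ha hb => ?_) le_rfl fun i _ => ?_
    · exact one_le_mul_of_one_le_of_one_le ha hb
    · exact one_le_pow₀ (hone i)
  exact ((le_self_pow₀ (hone l) (by have := hr l; omega)).trans h1).trans (hx.trans hb)

end

end Pool.Agent.Q151.LO
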