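import Pool.Agent.Q151.LO.Com

/-!
Project LO of helper35 (MP_1acd66_nt), job PIG (helper151).
-/

set_option autoImplicit false

namespace Pool.Agent.Q151.LO

open Finset Function NumberField
open Pool.Agent.Q35.MM (bx dg Pts S1 mem_bx)
open Pool.Agent.Q35.SM (Cof Vs Var Pol ev pv MH)
open Pool.Agent.Q35.LO (nu Frame lf VV)

section

/-- The linear forms have integral coefficients with bounded conjugates. -/
theorem lf_bound (K : Type) [Field K] [NumberField K] (ι : Type) [Fintype ι] [DecidableEq ι]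
    (n : ι → ℕ) (k : ℕ) (c : Fin k → Cof K n) (hc : ∀ t a, IsIntegral ℤ (c t a)) :
    ∃ C1 : ℕ, 1 ≤ C1 ∧ ∀ (j : ι) (b : ι → ℕ) (x : Vs K n),
      (∀ l, l ≠ j → x l ∈ bx K (n l + 1) (b l)) → ∀ t a,
      lf c x j t a ∈ S1 K (C1 * ∏ l ∈ univ.erase j, b l) := by
  obtain ⟨X, hX⟩ : ∃ X : ℝ, X = ∑ t, ∑ φ : K →+* ℂ, ∑ a, ‖φ (c t a)‖ := ⟨_, rfl⟩
  refine ⟨⌈X⌉₊ + 1, by omega, fun j b x hx t a => ⟨?_, fun φ => ?_⟩⟩
  · unfold lf ev
    refine IsIntegral.sum _ fun a' _ => IsIntegral.mul (hc t a') (IsIntegral.prod _ fun i _ => ?_)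
    by_cases hij : i = j
    · subst hij
      rw [update_self]
      by_cases ha : a' i = a
      · rw [← ha, Pi.single_eq_same]
        exact isIntegral_one
      · rw [Pi.single_eq_of_ne ha]
        exact isIntegral_zero
    · rw [update_of_ne hij]
      exact ((mem_bx.1 (hx i hij)) _).1
  · unfold lf ev
    rw [map_sum]
    have h1 : ∀ a' ∈ (univ : Finset (∀ i, Fin (n i + 1))),
        ‖φ (algebraMap K K (c t a') * ∏ i, update x j (Pi.single a 1) i (a' i))‖ ≤
          ‖φ (c t a')‖ * ∏ l ∈ univ.erase j, (b l : ℝ) := by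
      intro a' _
      rw [map_mul, norm_mul, Algebra.algebraMap_self, RingHom.id_apply]
      refine mul_le_mul_of_nonneg_left ?_ (norm_nonneg _)
      rw [map_prod, norm_prod, ← Finset.mul_prod_erase univ _ (mem_univ j)]
      have h2 : ‖φ (update x j (Pi.single a 1) j (a' j))‖ ≤ 1 := by
        rw [update_self]
        by_cases ha : a' j = a
        · rw [← ha, Pi.single_eq_same, map_one, norm_one]
        · rw [Pi.single_eq_of_ne ha, map_zero, norm_zero]
          exact zero_le_one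
      have h3 : ∏ i ∈ univ.erase j, ‖φ (update x j (Pi.single a 1) i (a' i))‖ ≤
          ∏ l ∈ univ.erase j, (b l : ℝ) := by
        refine Finset.prod_le_prod (fun _ _ => norm_nonneg _) fun i hi => ?_
        have hij : i ≠ j := (mem_erase.1 hi).1
        rw [update_of_ne hij]
        exact ((mem_bx.1 (hx i hij)) _).2 φ
      calc _ ≤ 1 * ∏ l ∈ univ.erase j, (b l : ℝ) :=
            mul_le_mul h2 h3 (Finset.prod_nonneg fun _ _ => norm_nonneg _) zero_le_one
        _ = _ := one_mul _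
    refine (norm_sum_le_of_le _ h1).trans ?_
    rw [← Finset.sum_mul]
    push_cast
    refine mul_le_mul_of_nonneg_right ?_ (Finset.prod_nonneg fun _ _ => Nat.cast_nonneg _)
    have h4 : ∑ a', ‖φ (c t a')‖ ≤ X := by
      rw [hX]
      refine le_trans ?_ (single_le_sum (f := fun t => ∑ φ : K →+* ℂ, ∑ a, ‖φ (c t a)‖)
        (fun _ _ => sum_nonneg fun _ _ => sum_nonneg fun _ _ => norm_nonneg _) (mem_univ t))
      exact single_le_sum (f := fun φ : K →+* ℂ => ∑ a, ‖φ (c t a)‖)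
        (fun _ _ => sum_nonneg fun _ _ => norm_nonneg _) (mem_univ φ)
    have h5 := Nat.le_ceil X
    linarith

theorem pig_one (K : Type) [Field K] [NumberField K] (N k : ℕ) (hk : k ≤ N) (C1 : ℕ)
    (hC1 : 1 ≤ C1) : ∃ c0 : ℝ, 0 < c0 ∧ ∀ (L : Fin k → Fin N → K) (V : Submodule K (Fin N → K))
      (Q b : ℕ), 1 ≤ Q → 1 ≤ b → (∀ t a, L t a ∈ S1 K (C1 * Q)) →
      (∀ y : Fin N → K, y ∈ V ↔ ∀ t, ∑ a, L t a * y a = 0) →
      c0 * (b : ℝ) ^ (dg K * (N - k)) ≤ (Q : ℝ) ^ (dg K * k) * (nu K N V b : ℝ) := by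
  classical
  obtain ⟨c, hc0, hc1, hc⟩ := lw1 K N
  obtain ⟨E, hE⟩ : ∃ E : ℝ, E = (3 * ((N : ℝ) + 1) * C1) ^ (dg K * k) * ((bx K k 1).card : ℝ) :=
    ⟨_, rfl⟩
  have hC1' : (1 : ℝ) ≤ C1 := by exact_mod_cast hC1
  have hcard1 : (1 : ℝ) ≤ ((bx K k 1).card : ℝ) := by exact_mod_cast card_bx_pos K k 1
  have hE0 : 0 < E := by
    rw [hE]
    positivity
  refine ⟨min 1 (c / (3 ^ (dg K * (N - k)) * E)), by positivity, ?_⟩
  intro L V Q b hQ hb hL hV
  have hQ0 : (1 : ℝ) ≤ Q := by exact_mod_cast hQ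
  have hnu1 : (1 : ℝ) ≤ (nu K N V b : ℝ) := by exact_mod_cast one_le_nu N V b
  rcases Nat.lt_or_ge b 2 with hb2 | hb2
  · have : b = 1 := by omega
    subst this
    rw [Nat.cast_one, one_pow, mul_one]
    refine (min_le_left _ _).trans ?_
    exact one_le_mul_of_one_le_of_one_le (one_le_pow₀ hQ0) hnu1
  · obtain ⟨B', hB'⟩ : ∃ B' : ℕ, B' = b / 2 := ⟨_, rfl⟩
    have hB1 : 1 ≤ B' := by omega
    have hB2 : 2 * B' ≤ b := by omega
    have hB3 : b ≤ 3 * B' := by omega
    have hB1' : (1 : ℝ) ≤ B' := by exact_mod_cast hB1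
    obtain ⟨f, hf⟩ : ∃ f : (Fin N → K) → (Fin k → K), f = fun y t => ∑ a, L t a * y a := ⟨_, rfl⟩
    have hfib : ∀ v ∈ (bx K N B').image f, ((bx K N B').filter fun y => f y = v).card ≤
        nu K N V b := by
      intro v hv
      rw [mem_image] at hv
      obtain ⟨y0, hy0, rfl⟩ := hv
      unfold nu
      refine Finset.card_le_card_of_injOn (fun y => y - y0) ?_ ?_
      · intro y hy
        rw [mem_coe, mem_filter] at hy
        rw [mem_coe, mem_filter, mem_bx]
        refine ⟨fun a => ⟨?_, fun φ => ?_⟩, ?_⟩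
        · exact ((mem_bx.1 hy.1) a).1.sub ((mem_bx.1 hy0) a).1
        · show ‖φ (y a - y0 a)‖ ≤ b
          rw [map_sub]
          refine (norm_sub_le _ _).trans ?_
          have h1 := ((mem_bx.1 hy.1) a).2 φ
          have h2 := ((mem_bx.1 hy0) a).2 φ
          have h3 : ((2 * B' : ℕ) : ℝ) ≤ b := by exact_mod_cast hB2
          push_cast at h3
          linarith
        · rw [hV]
          intro t
          have h1 := congrFun hy.2 t
          rw [hf] at h1
          simp only at h1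
          simp only [Pi.sub_apply, mul_sub, Finset.sum_sub_distrib]
          rw [h1, sub_self]
      · intro y _ y' _ h
        exact sub_left_injective h
    have h1 := Finset.card_le_mul_card_image (bx K N B') (nu K N V b) hfib
    have hsub : (bx K N B').image f ⊆ bx K k (((N + 1) * C1) * Q * B') := by
      intro v hv
      rw [mem_image] at hv
      obtain ⟨y, hy, rfl⟩ := hv
      rw [mem_bx] at hy ⊢
      intro t
      rw [hf]
      refine ⟨IsIntegral.sum _ fun a _ => (hL t a).1.mul (hy a).1, fun φ => ?_⟩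
      simp only
      rw [map_sum]
      have h2 : ∀ a ∈ (univ : Finset (Fin N)), ‖φ (L t a * y a)‖ ≤ ((C1 * Q : ℕ) : ℝ) * B' := by
        intro a _
        rw [map_mul, norm_mul]
        exact mul_le_mul ((hL t a).2 φ) ((hy a).2 φ) (norm_nonneg _) (Nat.cast_nonneg _)
      refine (norm_sum_le_of_le _ h2).trans ?_
      rw [sum_const, card_univ, Fintype.card_fin, nsmul_eq_mul]
      push_cast
      have h3 : (0 : ℝ) ≤ C1 * Q * B' := by positivity
      nlinarith
    have h2 := card_le_card hsub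
    have h3 := db1 K k (((N + 1) * C1) * Q * B') (by
      have : 0 < ((N + 1) * C1) * Q * B' := by positivity
      omega)
    have h4 : (((bx K N B').image f).card : ℝ) ≤ E * (Q : ℝ) ^ (dg K * k) *
        (B' : ℝ) ^ (dg K * k) := by
      refine le_trans (by exact_mod_cast h2) (h3.trans (le_of_eq ?_))
      rw [hE]
      push_cast
      rw [show (3 * (((N : ℝ) + 1) * C1 * Q * B')) = (3 * ((N : ℝ) + 1) * C1) * Q * B' by ring,
        mul_pow, mul_pow]
      ring
    have h5 : c * (B' : ℝ) ^ (dg K * N) ≤ nu K N V b * (E * (Q : ℝ) ^ (dg K * k) *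
        (B' : ℝ) ^ (dg K * k)) := by
      refine (hc B').trans ?_
      have h6 : ((bx K N B').card : ℝ) ≤ nu K N V b * ((bx K N B').image f).card := by
        exact_mod_cast h1
      exact h6.trans (mul_le_mul_of_nonneg_left h4 (Nat.cast_nonneg _))
    have h6 : dg K * N = dg K * (N - k) + dg K * k := by
      rw [← mul_add, Nat.sub_add_cancel hk]
    have hBk : (0 : ℝ) < (B' : ℝ) ^ (dg K * k) := by positivity
    have h7 : c * (B' : ℝ) ^ (dg K * (N - k)) ≤ nu K N V b * (E * (Q : ℝ) ^ (dg K * k)) := by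
      rw [h6, pow_add] at h5
      refine le_of_mul_le_mul_right ?_ hBk
      calc c * (B' : ℝ) ^ (dg K * (N - k)) * (B' : ℝ) ^ (dg K * k) =
          c * ((B' : ℝ) ^ (dg K * (N - k)) * (B' : ℝ) ^ (dg K * k)) := by ring
        _ ≤ _ := h5
        _ = _ := by ring
    have h8 : (b : ℝ) ^ (dg K * (N - k)) ≤ 3 ^ (dg K * (N - k)) * (B' : ℝ) ^ (dg K * (N - k)) := by
      rw [← mul_pow]
      refine pow_le_pow_left₀ (Nat.cast_nonneg _) ?_ _
      exact_mod_cast hB3
    have h9 : (0 : ℝ) < 3 ^ (dg K * (N - k)) * E := by positivity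
    calc min 1 (c / (3 ^ (dg K * (N - k)) * E)) * (b : ℝ) ^ (dg K * (N - k)) ≤
        (c / (3 ^ (dg K * (N - k)) * E)) *
          (3 ^ (dg K * (N - k)) * (B' : ℝ) ^ (dg K * (N - k))) :=
          mul_le_mul (min_le_right _ _) h8 (by positivity) (by positivity)
      _ = (c * (B' : ℝ) ^ (dg K * (N - k))) / E := by
          field_simp
      _ ≤ (nu K N V b * (E * (Q : ℝ) ^ (dg K * k))) / E :=
          div_le_div_of_nonneg_right h7 hE0.le
      _ = (Q : ℝ) ^ (dg K * k) * (nu K N V b : ℝ) := by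
          field_simp

theorem pig : Pool.Agent.Q35.LO.S_PIG := by
  intro K _ _ ι _ _ n k c hc
  obtain ⟨C1, hC1, hlf⟩ := lf_bound K ι n k c hc
  have hj : ∀ j : ι, ∃ c0 : ℝ, 0 < c0 ∧ (k ≤ n j + 1 →
      ∀ (L : Fin k → Fin (n j + 1) → K) (V : Submodule K (Fin (n j + 1) → K))
      (Q b : ℕ), 1 ≤ Q → 1 ≤ b → (∀ t a, L t a ∈ S1 K (C1 * Q)) →
      (∀ y : Fin (n j + 1) → K, y ∈ V ↔ ∀ t, ∑ a, L t a * y a = 0) →
      c0 * (b : ℝ) ^ (dg K * (n j + 1 - k)) ≤ (Q : ℝ) ^ (dg K * k) * (nu K (n j + 1) V b : ℝ)) := by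
    intro j
    by_cases h : k ≤ n j + 1
    · obtain ⟨c0, h0, h1⟩ := pig_one K (n j + 1) k h C1 hC1
      exact ⟨c0, h0, fun _ => h1⟩
    · exact ⟨1, one_pos, fun h' => absurd h' h⟩
  choose g hg0 hg using hj
  obtain ⟨c0, hc0, hle⟩ : ∃ c0 : ℝ, 0 < c0 ∧ ∀ j, c0 ≤ g j := by
    rcases isEmpty_or_nonempty ι with h | h
    · exact ⟨1, one_pos, fun j => h.elim j⟩
    · obtain ⟨j0, hj0⟩ := Finite.exists_min g
      exact ⟨g j0, hg0 j0, hj0⟩
  refine ⟨c0, hc0, fun j b x hk hb hx => ?_⟩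
  have hQ : 1 ≤ ∏ l ∈ univ.erase j, b l := Finset.one_le_prod' fun l _ => hb l
  have h1 := hg j hk (fun t a => lf c x j t a) (VV c x j) (∏ l ∈ univ.erase j, b l) (b j) hQ (hb j)
    (hlf j b x hx) (fun y => Iff.rfl)
  rw [Nat.cast_prod] at h1
  refine le_trans ?_ h1
  exact mul_le_mul_of_nonneg_right (hle j) (by positivity)

end

end Pool.Agent.Q151.LO
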