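import Pool.Agent.Q151.LO.HbNo

/-!
Project LO of helper35 (MP_1acd66_nt), job REP (helper151).
-/

set_option autoImplicit false

namespace Pool.Agent.Q151.LO

open Finset Function NumberField
open Pool.Agent.Q35.MM (bx dg Pts S1 mem_bx)

section

variable {K : Type} [Field K] [NumberField K]

/-- The scaled conjugates. -/
noncomputable def sc (M : (K →+* ℂ) → ℝ) : K →+ ((K →+* ℂ) → ℂ) where
  toFun t := fun φ => (M φ : ℂ) * φ t
  map_zero' := by
    funext φ
    simp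
  map_add' s t := by
    funext φ
    simp [mul_add]

theorem sc_apply (M : (K →+* ℂ) → ℝ) (t : K) (φ : K →+* ℂ) : sc M t φ = (M φ : ℂ) * φ t := rfl

theorem sc_rat (M : (K →+* ℂ) → ℝ) (q : ℚ) (t : K) : sc M (q • t) = (q : ℝ) • sc M t := by
  funext φ
  rw [sc_apply, Pi.smul_apply, sc_apply, Algebra.smul_def, map_mul, eq_ratCast, map_ratCast,
    Complex.real_smul]
  push_cast
  ring

theorem rep : Pool.Agent.Q35.LO.S_REP := by
  intro K _ _ m x hx b hb
  classical
  obtain ⟨i₀, hi₀⟩ := Function.ne_iff.mp hx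
  have : Nonempty (Fin m) := ⟨i₀⟩
  -- the maxima at the places
  obtain ⟨M, hMd⟩ : ∃ M : InfinitePlace K → ℝ, M = fun v => ⨆ i, v (x i) := ⟨_, rfl⟩
  have hMle : ∀ (v : InfinitePlace K) i, v (x i) ≤ M v := fun v i => by
    rw [hMd]
    exact le_ciSup (f := fun i => v (x i)) (Set.finite_range _).bddAbove i
  have hM0 : ∀ v, 0 < M v := fun v => lt_of_lt_of_le (v.pos_iff.2 hi₀) (hMle v i₀)
  have hMat : ∀ v : InfinitePlace K, ∃ i, M v = v (x i) := by
    intro v
    obtain ⟨i, hi⟩ := exists_eq_ciSup_of_finite (f := fun i => v (x i))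
    refine ⟨i, ?_⟩
    rw [hMd]
    exact hi.symm
  obtain ⟨A, hA⟩ : ∃ A : ℝ, A = ∏ v : InfinitePlace K, M v ^ v.mult := ⟨_, rfl⟩
  have hA0 : 0 < A := by
    rw [hA]
    exact Finset.prod_pos fun v _ => pow_pos (hM0 v) _
  obtain ⟨H, hH⟩ : ∃ H : ℝ, H = Height.mulHeight x := ⟨_, rfl⟩
  have hH0 : 0 < H := by
    rw [hH]
    exact Height.mulHeight_pos _
  -- the norm of a multiplier
  have key : ∀ t : K, t ≠ 0 → (∀ a, IsIntegral ℤ (t * x a)) →
      H ≤ ∏ v : InfinitePlace K, (M v * v t) ^ v.mult := by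
    intro t ht hi
    have h0 : t • x ≠ 0 := smul_ne_zero ht hx
    have h1 := mulHeight_le_of_integral h0 hi
    rw [Height.mulHeight_smul_eq_mulHeight _ ht, ← hH] at h1
    refine h1.trans ?_
    refine Finset.prod_le_prod (fun v _ => pow_nonneg ?_ _) fun v _ => ?_
    · exact Real.iSup_nonneg fun a => apply_nonneg v _
    · refine pow_le_pow_left₀ (Real.iSup_nonneg fun a => apply_nonneg v _) ?_ _
      refine ciSup_le fun a => ?_
      rw [Pi.smul_apply, smul_eq_mul, map_mul, mul_comm]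
      exact mul_le_mul_of_nonneg_right (hMle v a) (apply_nonneg _ _)
  obtain ⟨d, hd⟩ : ∃ d : ℕ, d = dg K := ⟨_, rfl⟩
  have hd0 : d ≠ 0 := by
    rw [hd]
    exact (Module.finrank_pos (R := ℚ) (M := K)).ne'
  obtain ⟨δ, hδ⟩ : ∃ δ : ℝ, δ = H ^ ((d : ℝ)⁻¹) := ⟨_, rfl⟩
  have hδ0 : 0 < δ := by
    rw [hδ]
    exact Real.rpow_pos_of_pos hH0 _
  have hδd : δ ^ d = H := by
    rw [hδ]
    exact Real.rpow_inv_natCast_pow hH0.le hd0
  obtain ⟨Mφ, hMφ⟩ : ∃ Mφ : (K →+* ℂ) → ℝ, Mφ = fun φ => M (InfinitePlace.mk φ) := ⟨_, rfl⟩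
  have hnorm : ∀ (t : K) (φ : K →+* ℂ), ‖sc Mφ t φ‖ = M (InfinitePlace.mk φ) *
      (InfinitePlace.mk φ) t := by
    intro t φ
    rw [sc_apply, norm_mul, hMφ, Complex.norm_real, Real.norm_of_nonneg (hM0 _).le]
    rfl
  have hsep : ∀ t : K, t ≠ 0 → (∀ a, IsIntegral ℤ (t * x a)) → δ ≤ ‖sc Mφ t‖ := by
    intro t ht hi
    by_contra hcon
    push Not at hcon
    have h1 := key t ht hi
    have h2 : ∀ v : InfinitePlace K, M v * v t ≤ ‖sc Mφ t‖ := by
      intro v
      have h3 := hnorm t v.embedding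
      rw [InfinitePlace.mk_embedding] at h3
      rw [← h3]
      exact norm_le_pi_norm _ _
    have h3 : ∏ v : InfinitePlace K, (M v * v t) ^ v.mult ≤ ‖sc Mφ t‖ ^ d := by
      have h4 : ‖sc Mφ t‖ ^ d = ∏ v : InfinitePlace K, ‖sc Mφ t‖ ^ v.mult := by
        rw [Finset.prod_pow_eq_pow_sum, InfinitePlace.sum_mult_eq, hd]
      rw [h4]
      refine Finset.prod_le_prod (fun v _ => pow_nonneg ?_ _) fun v _ => ?_
      · exact mul_nonneg (hM0 v).le (apply_nonneg _ _)
      · exact pow_le_pow_left₀ (mul_nonneg (hM0 v).le (apply_nonneg _ _)) (h2 v) _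
    have h4 : ‖sc Mφ t‖ ^ d < δ ^ d := pow_lt_pow_left₀ hcon (norm_nonneg _) hd0
    rw [hδd] at h4
    linarith
  have hbd : ∀ t : K, t • x ∈ bx K m b → ‖sc Mφ t‖ ≤ (b : ℝ) := by
    intro t ht
    rw [mem_bx] at ht
    rw [pi_norm_le_iff_of_nonneg (Nat.cast_nonneg b)]
    intro φ
    rw [hnorm]
    obtain ⟨i, hi⟩ := hMat (InfinitePlace.mk φ)
    rw [hi, ← map_mul, mul_comm]
    exact (ht i).2 φ
  have hint : ∀ t : K, t • x ∈ bx K m b → ∀ a, IsIntegral ℤ (t * x a) := by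
    intro t ht a
    rw [mem_bx] at ht
    exact (ht a).1
  -- finiteness
  have hinj : Injective fun t : K => t • x := smul_left_injective K hx
  have hfin : {t : K | t • x ∈ bx K m b}.Finite :=
    Set.Finite.preimage (f := fun t : K => t • x) hinj.injOn (bx K m b).finite_toSet
  have hfin' : {t : K | t ≠ 0 ∧ t • x ∈ bx K m b}.Finite := hfin.subset fun t ht => ht.2
  refine ⟨hfin', ?_⟩
  rw [← hH, ← hd]
  rcases Set.eq_empty_or_nonempty {t : K | t ≠ 0 ∧ t • x ∈ bx K m b} with he | ⟨t₀, ht₀⟩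
  · rw [he, Set.ncard_empty, Nat.cast_zero, zero_mul]
    positivity
  have hδb : δ ≤ b := (hsep t₀ ht₀.1 (hint t₀ ht₀.2)).trans (hbd t₀ ht₀.2)
  -- the real span
  let bs : Module.Basis (Fin (dg K)) ℚ K := Module.finBasis ℚ K
  set E : Submodule ℝ ((K →+* ℂ) → ℂ) :=
    Submodule.span ℝ (Set.range fun i : Fin (dg K) => sc Mφ (bs i)) with hE
  have hEf : Module.finrank ℝ E ≤ d := by
    have := finrank_range_le_card (R := ℝ) (fun i : Fin (dg K) => sc Mφ (bs i))
    rw [Fintype.card_fin] at this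
    rw [hd]
    exact this
  have hmemE : ∀ t : K, sc Mφ t ∈ E := by
    intro t
    rw [← bs.sum_repr t, map_sum]
    refine Submodule.sum_mem _ fun i _ => ?_
    rw [sc_rat]
    exact Submodule.smul_mem _ _ (Submodule.subset_span ⟨i, rfl⟩)
  have hscinj : Injective (sc Mφ) := by
    intro s t h
    obtain ⟨φ⟩ : Nonempty (K →+* ℂ) := inferInstance
    have h1 := congrFun h φ
    rw [sc_apply, sc_apply] at h1
    have h2 : (Mφ φ : ℂ) ≠ 0 := by
      rw [hMφ]
      exact_mod_cast (hM0 _).ne'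
    exact φ.injective (mul_left_cancel₀ h2 h1)
  obtain ⟨P, hP⟩ : ∃ P : Finset K, P = hfin'.toFinset := ⟨_, rfl⟩
  have hPmem : ∀ t, t ∈ P ↔ t ≠ 0 ∧ t • x ∈ bx K m b := by
    intro t
    rw [hP, Set.Finite.mem_toFinset]
    rfl
  have hPc : {t : K | t ≠ 0 ∧ t • x ∈ bx K m b}.ncard = P.card := by
    rw [hP, Set.ncard_eq_toFinset_card _ hfin']
  set s : Finset E := P.image fun t => ⟨sc Mφ t, hmemE t⟩ with hs
  have hscard : s.card = P.card := by
    rw [hs, card_image_of_injective]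
    intro t u htu
    exact hscinj (congrArg Subtype.val htu)
  have h1 := Q144.MM.sep_card s b δ hδ0 (Nat.cast_nonneg b) (by
    intro c hc
    rw [hs, mem_image] at hc
    obtain ⟨t, ht, rfl⟩ := hc
    exact hbd t ((hPmem t).1 ht).2) (by
    intro c hc e he hce
    rw [hs, mem_image] at hc he
    obtain ⟨t, ht, rfl⟩ := hc
    obtain ⟨u, hu, rfl⟩ := he
    show δ ≤ ‖sc Mφ t - sc Mφ u‖
    rw [← map_sub]
    refine hsep (t - u) ?_ ?_
    · intro h
      apply hce
      rw [sub_eq_zero] at h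
      subst h
      rfl
    · intro a
      rw [sub_mul]
      exact (hint t ((hPmem t).1 ht).2 a).sub (hint u ((hPmem u).1 hu).2 a))
  rw [hscard] at h1
  have hb0 : (0 : ℝ) < b := by exact_mod_cast hb
  have h2 : (1 : ℝ) ≤ 2 * b / δ + 1 := by
    have : (0 : ℝ) ≤ 2 * b / δ := by positivity
    linarith
  have h3 : (P.card : ℝ) ≤ (3 * b / δ) ^ d := by
    calc (P.card : ℝ) ≤ (2 * b / δ + 1) ^ Module.finrank ℝ E := h1
      _ ≤ (2 * b / δ + 1) ^ d := pow_le_pow_right₀ h2 hEf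
      _ ≤ (3 * b / δ) ^ d := by
          refine pow_le_pow_left₀ (by positivity) ?_ d
          have h4 : (1 : ℝ) ≤ b / δ := by
            rw [le_div_iff₀ hδ0, one_mul]
            exact hδb
          have h5 : (3 * b / δ : ℝ) = 2 * b / δ + b / δ := by ring
          rw [h5]
          linarith
  rw [hPc]
  calc (P.card : ℝ) * H ≤ (3 * b / δ) ^ d * H := mul_le_mul_of_nonneg_right h3 hH0.le
    _ = 3 ^ d * (b : ℝ) ^ d := by
        rw [div_pow, hδd, mul_pow]
        field_simp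

end

end Pool.Agent.Q151.LO
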