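import Pool.Agent.Q151.LO.Com

/-!
Project LO of helper35 (MP_1acd66_nt), job REV (helper151).
-/

set_option autoImplicit false

namespace Pool.Agent.Q151.LO

open Finset Function NumberField
open Pool.Agent.Q35.MM (bx dg Pts S1 mem_bx)
open Pool.Agent.Q35.LO (nu Frame)

section

/-- Translates of the box `ρ` by the multiples of `m0`. -/
theorem translates {K : Type} [Field K] [NumberField K] {N r : ℕ} {V : Submodule K (Fin N → K)}
    {κ : ℝ} {W : ℕ} {w : Fin r → Fin N → K} {p : Fin r → Fin N} {Δ : K} (hwV : ∀ i, w i ∈ V)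
    (hwb : ∀ i, w i ∈ bx K N W) (hwp : ∀ i i', w i (p i') = if i = i' then Δ else 0)
    (hΔ : ∀ φ : K →+* ℂ, κ * W ≤ ‖φ Δ‖) (ρ T m0 B : ℕ) (hm0 : (2 * ρ : ℝ) < m0 * (κ * W))
    (hκ : 0 < κ) (hB : r * (m0 * (T * W)) + ρ ≤ B) :
    (bx K r T).card * nu K N V ρ ≤ nu K N V B := by
  classical
  unfold nu
  rw [← card_product]
  have hr : ∀ (l : Fin r → K) (i : Fin r), (∑ i', l i' • w i') (p i) = l i * Δ := by
    intro l i
    rw [Finset.sum_apply]
    simp only [Pi.smul_apply, smul_eq_mul, hwp]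
    simp
  refine Finset.card_le_card_of_injOn
    (fun q : (Fin r → K) × (Fin N → K) => (m0 : K) • (∑ i, q.1 i • w i) + q.2) ?_ ?_
  · rintro ⟨l, v⟩ hq
    rw [mem_coe, mem_product, mem_filter, mem_bx, mem_bx] at hq
    obtain ⟨hl, hv, hvV⟩ := hq
    simp only at hl hv hvV
    rw [mem_coe, mem_filter, mem_bx]
    refine ⟨fun a => ?_, ?_⟩
    · have he : ((m0 : K) • (∑ i, l i • w i) + v) a = (m0 : K) * (∑ i, l i * w i a) + v a := by
        rw [Pi.add_apply, Pi.smul_apply, smul_eq_mul, Finset.sum_apply]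
        rfl
      show ((m0 : K) • (∑ i, l i • w i) + v) a ∈ S1 K B
      rw [he]
      refine ⟨?_, fun φ => ?_⟩
      · refine IsIntegral.add (IsIntegral.mul (isIntegral_natCast _) (IsIntegral.sum _ fun i _ => ?_))
          (hv a).1
        exact (hl i).1.mul ((mem_bx.1 (hwb i)) a).1
      · rw [map_add, map_mul, map_natCast, map_sum]
        refine (norm_add_le _ _).trans ?_
        rw [norm_mul, Complex.norm_natCast]
        have h1 : ‖∑ i, φ (l i * w i a)‖ ≤ r * ((T : ℝ) * W) := by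
          have h2 : ∀ i ∈ (univ : Finset (Fin r)), ‖φ (l i * w i a)‖ ≤ (T : ℝ) * W := by
            intro i _
            rw [map_mul, norm_mul]
            exact mul_le_mul ((hl i).2 φ) (((mem_bx.1 (hwb i)) a).2 φ) (norm_nonneg _)
              (Nat.cast_nonneg _)
          refine (norm_sum_le_of_le _ h2).trans ?_
          rw [sum_const, card_univ, Fintype.card_fin, nsmul_eq_mul]
        have h3 := (hv a).2 φ
        have h4 : ((r * (m0 * (T * W)) + ρ : ℕ) : ℝ) ≤ (B : ℝ) := by exact_mod_cast hB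
        push_cast at h4
        have h5 : (m0 : ℝ) * ‖∑ i, φ (l i * w i a)‖ ≤ m0 * (r * ((T : ℝ) * W)) :=
          mul_le_mul_of_nonneg_left h1 (Nat.cast_nonneg _)
        calc (m0 : ℝ) * ‖∑ i, φ (l i * w i a)‖ + ‖φ (v a)‖ ≤ m0 * (r * ((T : ℝ) * W)) + ρ :=
              add_le_add h5 h3
          _ = r * (m0 * (T * W)) + ρ := by ring
          _ ≤ B := h4
    · refine V.add_mem (V.smul_mem _ (V.sum_mem fun i _ => V.smul_mem _ (hwV i))) hvV
  · rintro ⟨l, v⟩ hq ⟨l', v'⟩ hq' heq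
    rw [mem_coe, mem_product, mem_filter, mem_bx, mem_bx] at hq hq'
    obtain ⟨hl, hv, hvV⟩ := hq
    obtain ⟨hl', hv', hvV'⟩ := hq'
    simp only at hl hv hvV hl' hv' hvV' heq
    have hll : l = l' := by
      funext i
      by_contra hne
      have h1 := congrFun heq (p i)
      rw [Pi.add_apply, Pi.add_apply, Pi.smul_apply, Pi.smul_apply, hr, hr, smul_eq_mul,
        smul_eq_mul] at h1
      have h2 : (m0 : K) * ((l i - l' i) * Δ) = v' (p i) - v (p i) := by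
        linear_combination h1
      obtain ⟨φ, hφ⟩ := exists_one_le ((hl i).1.sub (hl' i).1) (sub_ne_zero.2 hne)
      have h3 : ‖φ ((m0 : K) * ((l i - l' i) * Δ))‖ = ‖φ (v' (p i) - v (p i))‖ := by rw [h2]
      rw [map_mul, map_mul, norm_mul, norm_mul, map_natCast, Complex.norm_natCast, map_sub φ (v' _)]
        at h3
      have h4 : ‖φ (v' (p i)) - φ (v (p i))‖ ≤ 2 * ρ := by
        refine (norm_sub_le _ _).trans ?_
        have h5 := (hv' (p i)).2 φ
        have h6 := (hv (p i)).2 φ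
        linarith
      have h5 : (m0 : ℝ) * (κ * W) ≤ m0 * (‖φ (l i - l' i)‖ * ‖φ Δ‖) := by
        refine mul_le_mul_of_nonneg_left ?_ (Nat.cast_nonneg _)
        calc κ * (W : ℝ) = 1 * (κ * W) := (one_mul _).symm
          _ ≤ ‖φ (l i - l' i)‖ * ‖φ Δ‖ :=
            mul_le_mul hφ (hΔ φ) (by positivity) (norm_nonneg _)
      linarith
    subst hll
    have h1 : v = v' := add_left_cancel heq
    rw [h1]

theorem rev : Pool.Agent.Q35.LO.S_REV := by
  intro K _ _ N r κ _ hκ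
  obtain ⟨c, hc0, hc1, hc⟩ := lw1 K r
  obtain ⟨D, hD⟩ : ∃ D : ℕ, (r : ℝ) * (3 / κ + 1) ≤ D ∧ 1 ≤ D := by
    refine ⟨⌈(r : ℝ) * (3 / κ + 1)⌉₊ + 1, ?_, by omega⟩
    push_cast
    have := Nat.le_ceil ((r : ℝ) * (3 / κ + 1))
    linarith
  obtain ⟨hD, hD1⟩ := hD
  have hD0 : (0 : ℝ) < D := by exact_mod_cast hD1
  refine ⟨(4 * D) ^ (dg K * r) * (1 + 1 / c), by positivity, ?_⟩
  rintro V W hW ⟨w, p, Δ, hwV, -, hwb, hwp, hΔ⟩ ρ B hWρ hρB
  have hW0 : (0 : ℝ) < W := by exact_mod_cast hW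
  have hρ0 : (0 : ℝ) < ρ := by exact_mod_cast (hW.trans hWρ)
  have hB0 : (0 : ℝ) < B := by exact_mod_cast ((hW.trans hWρ).trans hρB)
  obtain ⟨m0, hm0⟩ : ∃ m0 : ℕ, m0 = ⌈3 * (ρ : ℝ) / (κ * W)⌉₊ := ⟨_, rfl⟩
  have hκW : 0 < κ * (W : ℝ) := by positivity
  have hm1 : 3 * (ρ : ℝ) ≤ m0 * (κ * W) := by
    rw [← div_le_iff₀ hκW, hm0]
    exact Nat.le_ceil _
  have hm2 : (m0 : ℝ) * W ≤ (3 / κ + 1) * ρ := by
    have h1 : (m0 : ℝ) ≤ 3 * ρ / (κ * W) + 1 := by
      rw [hm0]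
      exact (Nat.ceil_lt_add_one (by positivity)).le
    have h2 : (W : ℝ) ≤ ρ := by exact_mod_cast hWρ
    calc (m0 : ℝ) * W ≤ (3 * ρ / (κ * W) + 1) * W := mul_le_mul_of_nonneg_right h1 hW0.le
      _ = 3 / κ * ρ + W := by field_simp
      _ ≤ (3 / κ + 1) * ρ := by linarith
  obtain ⟨T, hT⟩ : ∃ T : ℕ, T = B / (2 * D * ρ) := ⟨_, rfl⟩
  have hρ1 : 1 ≤ ρ := hW.trans hWρ
  have h2D : 0 < 2 * D * ρ := by positivity
  have hmono := nu_mono N V hρB
  have hnB : (0 : ℝ) ≤ (nu K N V B : ℝ) := Nat.cast_nonneg _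
  have hnR : (0 : ℝ) ≤ (nu K N V ρ : ℝ) := Nat.cast_nonneg _
  obtain ⟨e, he⟩ : ∃ e : ℕ, e = dg K * r := ⟨_, rfl⟩
  rw [← he]
  have hmono' : (nu K N V ρ : ℝ) ≤ nu K N V B := by exact_mod_cast hmono
  rcases Nat.eq_zero_or_pos T with hT0 | hT0
  · -- `B < 2 D ρ`
    have h1 : B < 2 * D * ρ := by
      rw [hT, Nat.div_eq_zero_iff] at hT0
      omega
    have h2 : (B : ℝ) ≤ 4 * D * ρ := by
      have : (B : ℝ) ≤ ((2 * D * ρ : ℕ) : ℝ) := by exact_mod_cast h1.le
      push_cast at this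
      have h3 : (0 : ℝ) ≤ D * ρ := by positivity
      nlinarith
    calc (nu K N V ρ : ℝ) * (B : ℝ) ^ e ≤ nu K N V B * (4 * D * ρ) ^ e :=
          mul_le_mul hmono' (pow_le_pow_left₀ hB0.le h2 e) (by positivity) hnB
      _ = (4 * D) ^ e * 1 * (ρ : ℝ) ^ e * nu K N V B := by
          rw [mul_pow]
          ring
      _ ≤ (4 * D) ^ e * (1 + 1 / c) * (ρ : ℝ) ^ e * nu K N V B := by
          have h3 : (1 : ℝ) ≤ 1 + 1 / c := by
            have : 0 < 1 / c := by positivity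
            linarith
          gcongr
  · have hTB : 2 * D * ρ * T ≤ B := by
      rw [hT]
      exact Nat.mul_div_le B _
    have hTB' : B < 2 * D * ρ * (T + 1) := by
      rw [hT]
      exact Nat.lt_mul_div_succ B h2D
    have hcast : (B : ℝ) ≤ 4 * D * ρ * T := by
      have h1 : (B : ℝ) ≤ ((2 * D * ρ * (T + 1) : ℕ) : ℝ) := by exact_mod_cast hTB'.le
      push_cast at h1
      have h2 : (1 : ℝ) ≤ T := by exact_mod_cast hT0
      have h3 : (0 : ℝ) ≤ D * ρ := by positivity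
      nlinarith
    have hbox : r * (m0 * (T * W)) + ρ ≤ B := by
      have h1 : ((r * (m0 * (T * W)) + ρ : ℕ) : ℝ) ≤ (B : ℝ) := by
        push_cast
        have h2 : ((2 * D * ρ * T : ℕ) : ℝ) ≤ B := by exact_mod_cast hTB
        push_cast at h2
        have h3 : (r : ℝ) * (m0 * (T * W)) ≤ D * ρ * T := by
          calc (r : ℝ) * (m0 * (T * W)) = r * (m0 * W) * T := by ring
            _ ≤ r * ((3 / κ + 1) * ρ) * T := by gcongr
            _ = (r * (3 / κ + 1)) * ρ * T := by ring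
            _ ≤ D * ρ * T := by gcongr
        have h4 : (ρ : ℝ) ≤ D * ρ * T := by
          have h5 : (1 : ℝ) ≤ D := by exact_mod_cast hD1
          have h6 : (1 : ℝ) ≤ T := by exact_mod_cast hT0
          calc (ρ : ℝ) = 1 * ρ * 1 := by ring
            _ ≤ D * ρ * T := by gcongr
        linarith
      exact_mod_cast h1
    have hmain := translates hwV hwb hwp hΔ ρ T m0 B (by linarith) hκ hbox
    have hmain' : ((bx K r T).card : ℝ) * (nu K N V ρ : ℝ) ≤ nu K N V B := by exact_mod_cast hmain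
    have hcT : c * (T : ℝ) ^ e ≤ ((bx K r T).card : ℝ) := by
      rw [he]
      exact hc T
    calc (nu K N V ρ : ℝ) * (B : ℝ) ^ e ≤ nu K N V ρ * (4 * D * ρ * T) ^ e := by gcongr
      _ = (4 * D) ^ e * (1 / c) * (ρ : ℝ) ^ e * ((c * (T : ℝ) ^ e) * nu K N V ρ) := by
          rw [mul_pow, mul_pow]
          field_simp
      _ ≤ (4 * D) ^ e * (1 / c) * (ρ : ℝ) ^ e * ((bx K r T).card * nu K N V ρ) := by gcongr
      _ ≤ (4 * D) ^ e * (1 / c) * (ρ : ℝ) ^ e * nu K N V B := by gcongr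
      _ ≤ (4 * D) ^ e * (1 + 1 / c) * (ρ : ℝ) ^ e * nu K N V B := by
          gcongr
          linarith

end

end Pool.Agent.Q151.LO
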